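import Pool.Agent.Work.MP_970e75_an.Full.AllDim

/-!
Which infinite discrete subgroups of a Stein complex Lie group are tame.
-/

namespace Pool.Agent.Results.MP_970e75_an.TameSubgroups

open scoped Manifold ContDiff
open Pool.Agent.Work.MP_970e75_an.Gen

/-- Let `G` be a complex Lie group (of finite dimension, connected or not) whose underlying complex
manifold is Stein, and let `Γ` be an infinite discrete subgroup of `G`. If the dimension of `G` is
at least two, then `Γ` is tame. If the dimension is one, then `Γ` is tame if and only if it meets
the identity component of `G` in a finite set. If the dimension is zero, then `Γ` is tame if and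
only if it is not the whole group `G`. -/
theorem result {E : Type} [NormedAddCommGroup E] [NormedSpace ℂ E] [FiniteDimensional ℂ E]
    {G : Type} [TopologicalSpace G] [ChartedSpace E G] [Group G] [LieGroup 𝓘(ℂ, E) ω G]
    (hG : IsStein E G) (Γ : Subgroup G) [DiscreteTopology Γ] [Infinite Γ] :
    IsTame E (Γ : Set G) ↔
      2 ≤ Module.finrank ℂ E ∨
      Module.finrank ℂ E = 1 ∧ ((Γ : Set G) ∩ connectedComponent (1 : G)).Finite ∨
      Module.finrank ℂ E = 0 ∧ Γ ≠ ⊤ :=
  Pool.Agent.Work.MP_970e75_an.Full.isTame_iff E G hG Γ

end Pool.Agent.Results.MP_970e75_an.TameSubgroups
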